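import Pool.Agent.Q226.UGC.Defs
import Pool.Agent.Y601.SSE.Ac0

set_option autoImplicit false
set_option linter.unusedSectionVars false

/-!
Reductions of small depth from parity to unique games.
-/

namespace Pool.Agent.Q226.UGC

open Finset DomAC0 H568R2 Pool.Agent.TH163.AC3 Pool.Agent.Y601 Pool.Agent.Y601.SSE

open scoped Classical

variable {T U V A : Type} [Fintype T]

/-- the number of constraints of `g` which `g'` does not have -/
noncomputable def gone (g g' : T → Bool) : ℕ :=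
  (univ.filter fun e => g e = true ∧ ¬ g' e = true).card

theorem sat_le (src : T → U) (tgt : T → V) (perm : T → Equiv.Perm A) (g g' : T → Bool)
    (L : U → A) (M : V → A) :
    satisfied src tgt perm g L M ≤ satisfied src tgt perm g' L M + gone g g' := by
  unfold satisfied gone
  refine le_trans (card_le_card ?_) (card_union_le _ _)
  intro e he
  simp only [mem_filter, mem_univ, true_and, mem_union] at he ⊢
  by_cases h : g' e = true
  · exact Or.inl ⟨h, he.2⟩
  · exact Or.inr ⟨he.1, h⟩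

theorem size_gone (g g' : T → Bool) : size g + gone g' g = size g' + gone g g' := by
  have h : ∀ a b : T → Bool, size a + gone b a =
      (univ.filter fun e => a e = true ∨ b e = true).card := by
    intro a b
    unfold size gone
    rw [← card_union_of_disjoint]
    · congr 1
      ext e
      simp only [mem_union, mem_filter, mem_univ, true_and]
      tauto
    · rw [disjoint_left]
      intro e he hq
      simp only [mem_filter, mem_univ, true_and] at he hq
      exact hq.2 he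
  rw [h g g', h g' g]
  congr 1
  ext e
  simp only [mem_filter, mem_univ, true_and]
  tauto

/-- a yes instance and a no instance differ in many constraints -/
theorem differ (src : T → U) (tgt : T → V) (perm : T → Equiv.Perm A) (g g' : T → Bool) (ε δ : ℝ)
    (hε : 0 ≤ ε) (hδ : 0 ≤ δ)
    (hyes : ∃ L M, (1 - ε) * size g ≤ satisfied src tgt perm g L M)
    (hno : ∀ L M, (satisfied src tgt perm g' L M : ℝ) ≤ δ * size g') :
    (1 - ε - δ) * ((size g : ℝ) + size g') / 2 ≤ (gone g g' : ℝ) + gone g' g := by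
  obtain ⟨L, M, h1⟩ := hyes
  have h2 := hno L M
  have e1 : (satisfied src tgt perm g L M : ℝ) ≤ satisfied src tgt perm g' L M + gone g g' := by
    exact_mod_cast sat_le src tgt perm g g' L M
  have e2 : (size g : ℝ) + gone g' g = size g' + gone g g' := by
    exact_mod_cast size_gone g g'
  have h0 : (0 : ℝ) ≤ size g := Nat.cast_nonneg _
  have h0' : (0 : ℝ) ≤ size g' := Nat.cast_nonneg _
  have hl : (0 : ℝ) ≤ gone g g' := Nat.cast_nonneg _
  have hl' : (0 : ℝ) ≤ gone g' g := Nat.cast_nonneg _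
  by_cases hneg : 1 - ε - δ ≤ 0
  · have : (1 - ε - δ) * ((size g : ℝ) + size g') ≤ 0 :=
      mul_nonpos_of_nonpos_of_nonneg hneg (by linarith)
    linarith
  push Not at hneg
  rcases le_total (size g' : ℝ) (size g) with h | h
  · have h3 : (1 - ε - δ) * size g ≤ gone g g' := by nlinarith
    have h4 : (1 - ε - δ) * ((size g : ℝ) + size g') ≤ (1 - ε - δ) * (size g + size g) :=
      mul_le_mul_of_nonneg_left (by linarith) hneg.le
    linarith
  · have h3 : (1 - ε - δ) * size g' ≤ gone g g' + gone g' g := by nlinarith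
    have h4 : (1 - ε - δ) * ((size g : ℝ) + size g') ≤ (1 - ε - δ) * (size g' + size g') :=
      mul_le_mul_of_nonneg_left (by linarith) hneg.le
    linarith

/-- the double counting -/
theorem count {I : Type} [Fintype I] [DecidableEq I] {s : ℕ} (G : (I → Bool) → T → Bool)
    (J : Finset I) (hG : ∀ x, 1 ≤ size (G x)) (κ : ℝ)
    (hdt : ∀ e, HasDT s (fun x => G x e))
    (hpair : ∀ i ∈ J, ∀ x, κ * ((size (G x) : ℝ) + size (G (SSE.flip i x))) / 2 ≤
      (gone (G x) (G (SSE.flip i x)) : ℝ) + gone (G (SSE.flip i x)) (G x)) :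
    κ * J.card ≤ 2 * s := by
  have hlost : ∀ x, ∑ i ∈ J, gone (G x) (G (SSE.flip i x)) ≤ s * size (G x) := by
    intro x
    unfold gone size
    simp_rw [card_filter]
    rw [sum_comm]
    have h1 : ∀ e : T, ∑ i ∈ J, (if G x e = true ∧ ¬ G (SSE.flip i x) e = true then 1
        else 0) ≤ s * if G x e = true then 1 else 0 := by
      intro e
      by_cases hp : G x e = true
      · simp only [hp, true_and, if_true, mul_one]
        rw [← card_filter]
        refine le_trans (card_le_card ?_) (sens_le (hdt e) J x)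
        intro i hi
        rw [mem_filter] at hi ⊢
        exact ⟨hi.1, by rw [hp]; exact hi.2⟩
      · simp [hp]
    refine (sum_le_sum fun e _ => h1 e).trans ?_
    rw [← mul_sum]
  have hsum1 : ∑ x, ∑ i ∈ J, (gone (G x) (G (SSE.flip i x)) : ℝ) ≤
      s * ∑ x, (size (G x) : ℝ) := by
    rw [mul_sum]
    refine sum_le_sum fun x _ => ?_
    have h2 : ((∑ i ∈ J, gone (G x) (G (SSE.flip i x)) : ℕ) : ℝ) ≤
        ((s * size (G x) : ℕ) : ℝ) := by exact_mod_cast hlost x
    push_cast at h2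
    exact h2
  have hinv : ∀ (i : I) (f : (I → Bool) → ℝ), ∑ x, f (SSE.flip i x) = ∑ x, f x := by
    intro i f
    exact Fintype.sum_equiv ⟨SSE.flip i, SSE.flip i, SSE.flip_flip i, SSE.flip_flip i⟩ _ _ fun x => rfl
  have hsum2 : ∀ i ∈ J, κ * ∑ x, (size (G x) : ℝ) ≤
      2 * ∑ x, (gone (G x) (G (SSE.flip i x)) : ℝ) := by
    intro i hi
    have h1 := sum_le_sum fun x (_ : x ∈ (univ : Finset (I → Bool))) => hpair i hi x
    rw [sum_add_distrib] at h1
    have h2 : ∑ x, (gone (G (SSE.flip i x)) (G x) : ℝ) = ∑ x, (gone (G x) (G (SSE.flip i x)) : ℝ) := by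
      rw [← hinv i fun x => (gone (G x) (G (SSE.flip i x)) : ℝ)]
      exact sum_congr rfl fun x _ => by rw [SSE.flip_flip]
    have h3 : ∑ x, κ * ((size (G x) : ℝ) + size (G (SSE.flip i x))) / 2 =
        κ * ∑ x, (size (G x) : ℝ) := by
      rw [← sum_div, ← mul_sum, sum_add_distrib, hinv i fun x => (size (G x) : ℝ)]
      ring
    rw [h2, h3] at h1
    linarith
  have hsum3 := sum_le_sum hsum2
  rw [sum_const, nsmul_eq_mul, ← mul_sum, sum_comm] at hsum3
  have hdpos : 0 < ∑ x, (size (G x) : ℝ) := by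
    apply sum_pos
    · intro x _
      have h2 : 0 < size (G x) := hG x
      exact_mod_cast h2
    · exact univ_nonempty
  have h4 : (κ * J.card) * ∑ x, (size (G x) : ℝ) ≤ (2 * s) * ∑ x, (size (G x) : ℝ) := by
    calc (κ * J.card) * ∑ x, (size (G x) : ℝ)
        = J.card * (κ * ∑ x, (size (G x) : ℝ)) := by ring
      _ ≤ 2 * ∑ x, ∑ i ∈ J, (gone (G x) (G (SSE.flip i x)) : ℝ) := hsum3
      _ ≤ 2 * (s * ∑ x, (size (G x) : ℝ)) := by linarith
      _ = _ := by ring
  exact le_of_mul_le_mul_right h4 hdpos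

/-- reductions of small depth from parity: the parameters -/
theorem ac0_core {N : ℕ} (C : Circuit (Fin N)) (src : T → U) (tgt : T → V)
    (perm : T → Equiv.Perm A) (out : T → Fin N ⊕ Fin C.size) (h : ℕ)
    (hh : ∀ e, C.nodeDepth (out e) ≤ h)
    (hG : ∀ x, 1 ≤ size fun e => C.nodeVal x (out e)) (ε δ : ℝ) (hε : 0 ≤ ε) (hδ : 0 ≤ δ)
    (hεδ : ε + δ < 1)
    (hyes : ∀ x, ¬ Odd (univ.filter fun i => x i = true).card →
      ∃ L M, (1 - ε) * (size fun e => C.nodeVal x (out e)) ≤
        satisfied src tgt perm (fun e => C.nodeVal x (out e)) L M)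
    (hno : ∀ x, Odd (univ.filter fun i => x i = true).card →
      ∀ L M, (satisfied src tgt perm (fun e => C.nodeVal x (out e)) L M : ℝ) ≤
        δ * (size fun e => C.nodeVal x (out e)))
    {s : ℕ} (hs : 1 ≤ s) (hcond : h * C.size * (24 * s) ^ h ≤ 2 ^ s) :
    (1 - ε - δ) * N ≤ (24 * s) ^ (h + 1) := by
  have hs0 : (1 : ℝ) ≤ s := by exact_mod_cast hs
  rcases Nat.eq_zero_or_pos N with hN | hN
  · subst hN
    simp only [Nat.cast_zero, mul_zero]
    positivity
  obtain ⟨ρ, hρ, hst⟩ := exists_restr C (by simpa using hN) hs h hcond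
  rw [Fintype.card_fin] at hst
  obtain ⟨J, hJ⟩ : ∃ J : Finset (Fin N), J = univ.filter fun i => ρ i = none := ⟨_, rfl⟩
  rw [← hJ] at hst
  have hcount := count (s := s) (fun x e => C.nodeVal (ov ρ x) (out e)) J
    (fun x => hG _) (1 - ε - δ) (fun e => node_dt C hs hρ (out e) (hh e)) ?_
  · have hg : 0 ≤ (1 - ε - δ) := by linarith
    calc (1 - ε - δ) * N
        ≤ (1 - ε - δ) * (4 * (24 * s) ^ h * J.card) :=
          mul_le_mul_of_nonneg_left hst hg
      _ = 4 * (24 * s) ^ h * ((1 - ε - δ) * J.card) := by ring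
      _ ≤ 4 * (24 * s) ^ h * (2 * s) := mul_le_mul_of_nonneg_left hcount (by positivity)
      _ ≤ (24 * s) ^ (h + 1) := by
        rw [pow_succ]
        have : (0 : ℝ) ≤ (24 * s) ^ h := by positivity
        nlinarith
  · intro i hi x
    rw [hJ, mem_filter] at hi
    show (1 - ε - δ) * ((size (fun e => C.nodeVal (ov ρ x) (out e)) : ℝ) +
      size (fun e => C.nodeVal (ov ρ (SSE.flip i x)) (out e))) / 2 ≤
      (gone (fun e => C.nodeVal (ov ρ x) (out e))
        (fun e => C.nodeVal (ov ρ (SSE.flip i x)) (out e)) : ℝ) +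
        gone (fun e => C.nodeVal (ov ρ (SSE.flip i x)) (out e))
          (fun e => C.nodeVal (ov ρ x) (out e))
    rw [ov_flip ρ i hi.2]
    have hpar := odd_flip i (ov ρ x)
    by_cases hodd : Odd (univ.filter fun j => ov ρ x j = true).card
    · have hev : ¬ Odd (univ.filter fun j => SSE.flip i (ov ρ x) j = true).card := by
        rw [hpar]; exact not_not.2 hodd
      have h1 := differ src tgt perm (fun e => C.nodeVal (SSE.flip i (ov ρ x)) (out e))
        (fun e => C.nodeVal (ov ρ x) (out e)) ε δ hε hδ (hyes _ hev) (hno _ hodd)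
      linarith
    · have hod : Odd (univ.filter fun j => SSE.flip i (ov ρ x) j = true).card := hpar.2 hodd
      exact differ src tgt perm (fun e => C.nodeVal (ov ρ x) (out e))
        (fun e => C.nodeVal (SSE.flip i (ov ρ x)) (out e)) ε δ hε hδ (hyes _ hodd) (hno _ hod)

/-- reductions of small depth from parity must be large -/
theorem ac0_main (h : ℕ) : ∃ X0 : ℝ, ∀ {N : ℕ} (C : Circuit (Fin N)) {T U V A : Type} [Fintype T]
    (src : T → U) (tgt : T → V) (perm : T → Equiv.Perm A) (out : T → Fin N ⊕ Fin C.size) (ε δ : ℝ),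
    (∀ e, C.nodeDepth (out e) ≤ h) →
    (∀ x, 1 ≤ size fun e => C.nodeVal x (out e)) → 0 ≤ ε → 0 ≤ δ → ε + δ < 1 →
    (∀ x, ¬ Odd (univ.filter fun i => x i = true).card →
      ∃ L M, (1 - ε) * (size fun e => C.nodeVal x (out e)) ≤
        satisfied src tgt perm (fun e => C.nodeVal x (out e)) L M) →
    (∀ x, Odd (univ.filter fun i => x i = true).card →
      ∀ L M, (satisfied src tgt perm (fun e => C.nodeVal x (out e)) L M : ℝ) ≤
        δ * (size fun e => C.nodeVal x (out e))) →
    X0 ≤ (1 - ε - δ) * N →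
    (2 : ℝ) ^ (((1 - ε - δ) * N) ^ (1 / (h + 1 : ℝ)) / 100) ≤ C.size := by
  obtain ⟨Y0, hY48, hY0⟩ := exists_large h
  refine ⟨Y0 ^ (h + 1), ?_⟩
  intro N C T U V A _ src tgt perm out ε δ hh hG hε hδ hεδ hyes hno hX
  obtain ⟨X, hXd⟩ : ∃ X : ℝ, X = (1 - ε - δ) * N := ⟨_, rfl⟩
  rw [← hXd] at hX ⊢
  obtain ⟨Y, hYd⟩ : ∃ Y : ℝ, Y = X ^ (1 / (h + 1 : ℝ)) := ⟨_, rfl⟩
  rw [← hYd]
  have hY00 : (0 : ℝ) ≤ Y0 := by linarith
  have hXpos : 0 ≤ X := le_trans (by positivity) hX
  have hYX : Y ^ (h + 1) = X := by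
    rw [hYd, ← Real.rpow_natCast, ← Real.rpow_mul hXpos]
    push_cast
    rw [one_div, inv_mul_cancel₀ (by positivity), Real.rpow_one]
  have hYn : 0 ≤ Y := by rw [hYd]; exact Real.rpow_nonneg hXpos _
  have hYY : Y0 ≤ Y := by
    by_contra hcon
    push Not at hcon
    have := pow_lt_pow_left₀ hcon hYn (Nat.succ_ne_zero h)
    rw [Nat.succ_eq_add_one, hYX] at this
    linarith
  have hY := hY0 Y hYY
  by_contra hcon
  push Not at hcon
  -- the depth of the decision trees
  obtain ⟨s, hs⟩ : ∃ s : ℕ, s = ⌈Y / 24⌉₊ - 1 := ⟨_, rfl⟩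
  have hc1 : Y / 24 ≤ ⌈Y / 24⌉₊ := Nat.le_ceil _
  have hc2 : (⌈Y / 24⌉₊ : ℝ) < Y / 24 + 1 := Nat.ceil_lt_add_one (by positivity)
  have hc3 : 2 ≤ ⌈Y / 24⌉₊ := by
    have : (2 : ℝ) ≤ ⌈Y / 24⌉₊ := le_trans (by linarith) hc1
    exact_mod_cast this
  have hs1 : 1 ≤ s := by omega
  have hsr : (s : ℝ) = ⌈Y / 24⌉₊ - 1 := by
    rw [hs, Nat.cast_sub (by omega), Nat.cast_one]
  have hs2 : 24 * (s : ℝ) < Y := by rw [hsr]; linarith
  have hs3 : Y / 24 - 1 ≤ s := by rw [hsr]; linarith
  have hlt : (24 * (s : ℝ)) ^ (h + 1) < X := by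
    rw [← hYX]
    exact pow_lt_pow_left₀ hs2 (by positivity) (Nat.succ_ne_zero h)
  have hcond : h * C.size * (24 * s) ^ h ≤ 2 ^ s := by
    have h1 : ((h * C.size * (24 * s) ^ h : ℕ) : ℝ) ≤ ((2 ^ s : ℕ) : ℝ) := by
      push_cast
      calc (h : ℝ) * C.size * (24 * s) ^ h ≤ h * 2 ^ (Y / 100) * Y ^ h := by
            apply mul_le_mul _ (pow_le_pow_left₀ (by positivity) hs2.le h) (by positivity)
              (by positivity)
            exact mul_le_mul_of_nonneg_left hcon.le (Nat.cast_nonneg _)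
        _ = h * Y ^ h * 2 ^ (Y / 100) := by ring
        _ ≤ 2 ^ (Y / 24 - 1) := hY
        _ ≤ (2 : ℝ) ^ (s : ℝ) := Real.rpow_le_rpow_of_exponent_le (by norm_num) hs3
        _ = 2 ^ s := Real.rpow_natCast _ _
    exact_mod_cast h1
  have hcore := ac0_core C src tgt perm out h hh hG ε δ hε hδ hεδ hyes hno hs1 hcond
  rw [← hXd] at hcore
  linarith

end Pool.Agent.Q226.UGC
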