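import Pool.Agent.Q226.UGC.Defs
import Pool.Agent.H568R2.Defs

set_option autoImplicit false

/-!
Without a gap a reduction of depth one from parity to unique games exists: a cycle of shifts.
-/

namespace Pool.Agent.Q226.UGC

open Finset DomAC0

open scoped Classical

/-- the circuit: the negations of the inputs and the constant true -/
noncomputable def parC (n : ℕ) : Circuit (Fin (n + 1)) where
  size := n + 2
  kind g := if g.val < n + 1 then GateKind.not else GateKind.and
  preds g := if h : g.val < n + 1 then {Sum.inl ⟨g.val, h⟩} else ∅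
  acyclic g h hh := by
    by_cases hg : g.val < n + 1
    · rw [dif_pos hg] at hh
      simp at hh
    · rw [dif_neg hg] at hh
      simp at hh
  unary g hg := by
    by_cases h : g.val < n + 1
    · rw [dif_pos h, card_singleton]
    · rw [if_neg h] at hg
      exact absurd hg (by simp)
  output := Sum.inr ⟨0, by omega⟩

lemma parC_kind_not {n : ℕ} (j : Fin (n + 1)) :
    (parC n).kind ⟨j.val, by show j.val < n + 2; omega⟩ = GateKind.not := by
  show (if j.val < n + 1 then GateKind.not else GateKind.and) = _
  rw [if_pos j.2]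

lemma parC_not {n : ℕ} (x : Fin (n + 1) → Bool) (j : Fin (n + 1)) :
    (parC n).nodeVal x (Sum.inr ⟨j.val, by show j.val < n + 2; omega⟩) = !x j := by
  show (parC n).gateVal x _ = _
  have hp : (parC n).preds ⟨j.val, by show j.val < n + 2; omega⟩ = {Sum.inl j} := by
    show (if h : j.val < n + 1 then ({Sum.inl ⟨j.val, h⟩} : Finset (Fin (n + 1) ⊕ Fin (n + 2)))
      else ∅) = _
    rw [dif_pos j.2]
    rfl
  rw [Bool.eq_iff_iff]
  rw [Circuit.gateVal.eq_def, parC_kind_not]
  simp only [decide_eq_true_eq]
  constructor
  · intro H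
    have h1 := H (Sum.inl j) (by rw [hp]; simp)
    simp only at h1
    simp [h1]
  · intro H v hv
    rw [hp, mem_singleton] at hv
    subst hv
    simpa using H

lemma parC_true {n : ℕ} (x : Fin (n + 1) → Bool) :
    (parC n).nodeVal x (Sum.inr ⟨n + 1, by show n + 1 < n + 2; omega⟩) = true := by
  show (parC n).gateVal x _ = _
  have hk : (parC n).kind ⟨n + 1, by show n + 1 < n + 2; omega⟩ = GateKind.and := by
    show (if n + 1 < n + 1 then GateKind.not else GateKind.and) = _
    rw [if_neg (by omega)]
  have hp : (parC n).preds ⟨n + 1, by show n + 1 < n + 2; omega⟩ = ∅ := by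
    show (if h : n + 1 < n + 1 then ({Sum.inl ⟨n + 1, h⟩} : Finset (Fin (n + 1) ⊕ Fin (n + 2)))
      else ∅) = _
    rw [dif_neg (by omega)]
    rfl
  rw [Circuit.gateVal.eq_def, hk]
  simp only [decide_eq_true_eq]
  intro v hv
  rw [hp] at hv
  simp at hv

lemma parC_depth {n : ℕ} (v : Fin (n + 1) ⊕ Fin (parC n).size) : (parC n).nodeDepth v ≤ 1 := by
  cases v with
  | inl j => exact Nat.zero_le _
  | inr g =>
    show (parC n).gateDepth g ≤ 1
    rw [Circuit.gateDepth.eq_def]
    refine Nat.succ_le_succ ?_
    refine Finset.sup_le fun w _ => ?_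
    obtain ⟨w, hw⟩ := w
    cases w with
    | inl j => exact le_rfl
    | inr h =>
      exfalso
      have hw' : (Sum.inr h : Fin (n + 1) ⊕ Fin (n + 2)) ∈ (if h : g.val < n + 1 then
        ({Sum.inl ⟨g.val, h⟩} : Finset (Fin (n + 1) ⊕ Fin (n + 2))) else ∅) := hw
      by_cases hg : g.val < n + 1
      · rw [dif_pos hg, mem_singleton] at hw'
        exact absurd hw' (by simp)
      · rw [dif_neg hg] at hw'
        exact absurd hw' (Finset.notMem_empty _)

/-- the output nodes of the possible constraints -/
noncomputable def parOut (n : ℕ) : Fin (n + 1) × Option Bool → Fin (n + 1) ⊕ Fin (parC n).size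
  | (j, some true) => Sum.inl j
  | (j, some false) => Sum.inr ⟨j.val, by show j.val < n + 2; omega⟩
  | (_, none) => Sum.inr ⟨n + 1, by show n + 1 < n + 2; omega⟩

/-- the left vertices -/
def parSrc (n : ℕ) : Fin (n + 1) × Option Bool → Fin (n + 1)
  | (j, some _) => j
  | (j, none) => finRotate (n + 1) j

/-- the right vertices -/
def parTgt (n : ℕ) : Fin (n + 1) × Option Bool → Fin (n + 1) := fun e => e.1

/-- the permutations -/
def parPerm (n : ℕ) : Fin (n + 1) × Option Bool → Equiv.Perm (ZMod 2)
  | (_, some true) => Equiv.addRight 1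
  | (_, some false) => Equiv.refl _
  | (_, none) => Equiv.refl _

/-- a bit as an element of `ZMod 2` -/
def bz (b : Bool) : ZMod 2 := if b = true then 1 else 0

lemma par_size {n : ℕ} (x : Fin (n + 1) → Bool) :
    size (fun e => (parC n).nodeVal x (parOut n e)) = 2 * (n + 1) := by
  unfold size
  rw [card_filter, Fintype.sum_prod_type]
  have h1 : ∀ j : Fin (n + 1), ∑ o : Option Bool,
      (if (parC n).nodeVal x (parOut n (j, o)) = true then 1 else 0) = 2 := by
    intro j
    rw [Fintype.sum_option, Fintype.sum_bool]
    have e1 : (parC n).nodeVal x (parOut n (j, none)) = true := parC_true x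
    have e2 : (parC n).nodeVal x (parOut n (j, some true)) = x j := rfl
    have e3 : (parC n).nodeVal x (parOut n (j, some false)) = !x j := parC_not x j
    rw [e1, e2, e3]
    cases x j <;> simp
  rw [sum_congr rfl fun j _ => h1 j, sum_const, card_univ, Fintype.card_fin, smul_eq_mul]
  ring

/-- the number of satisfied constraints -/
lemma par_sat {n : ℕ} (x : Fin (n + 1) → Bool) (L M : Fin (n + 1) → ZMod 2) :
    satisfied (parSrc n) (parTgt n) (parPerm n) (fun e => (parC n).nodeVal x (parOut n e)) L M =
      ∑ j, ((if L (finRotate (n + 1) j) = M j then 1 else 0) +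
        if L j + bz (x j) = M j then 1 else 0) := by
  unfold satisfied
  rw [card_filter, Fintype.sum_prod_type]
  refine sum_congr rfl fun j _ => ?_
  rw [Fintype.sum_option, Fintype.sum_bool]
  have e1 : (parC n).nodeVal x (parOut n (j, none)) = true := parC_true x
  have e2 : (parC n).nodeVal x (parOut n (j, some true)) = x j := rfl
  have e3 : (parC n).nodeVal x (parOut n (j, some false)) = !x j := parC_not x j
  simp only [e1, e2, e3]
  have f1 : parPerm n (j, none) (L (parSrc n (j, none))) = L (finRotate (n + 1) j) := rfl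
  have f2 : parPerm n (j, some true) (L (parSrc n (j, some true))) = L j + 1 := rfl
  have f3 : parPerm n (j, some false) (L (parSrc n (j, some false))) = L j := rfl
  have f4 : ∀ o, parTgt n (j, o) = j := fun o => rfl
  rw [f1, f2, f3]
  simp only [f4, true_and]
  congr 1
  cases x j
  · simp [bz]
  · simp [bz]

lemma odd_iff {n : ℕ} (x : Fin (n + 1) → Bool) :
    Odd (univ.filter fun i => x i = true).card ↔ ∑ j, bz (x j) = 1 := by
  have h1 : ∑ j, bz (x j) = (((univ.filter fun i => x i = true).card : ℕ) : ZMod 2) := by
    unfold bz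
    rw [Finset.sum_boole]
  rw [h1, ← ZMod.natCast_eq_one_iff_odd]

/-- the value is one if the number of ones is even -/
lemma par_even {n : ℕ} (x : Fin (n + 1) → Bool)
    (hx : ¬ Odd (univ.filter fun i => x i = true).card) :
    ∃ L M, satisfied (parSrc n) (parTgt n) (parPerm n)
      (fun e => (parC n).nodeVal x (parOut n e)) L M = 2 * (n + 1) := by
  have h0 : ∑ j, bz (x j) = 0 := by
    rw [odd_iff] at hx
    have h1 : ∀ z : ZMod 2, z ≠ 1 → z = 0 := by decide
    exact h1 _ hx
  let L : Fin (n + 1) → ZMod 2 := fun j => ∑ i ∈ univ.filter (fun i => i < j), bz (x i)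
  have hL : ∀ j, L (finRotate (n + 1) j) = L j + bz (x j) := by
    intro j
    have h2 : L j + bz (x j) = ∑ i ∈ univ.filter (fun i => i ≤ j), bz (x i) := by
      have h3 : (univ.filter fun i : Fin (n + 1) => i ≤ j) =
          insert j (univ.filter fun i => i < j) := by
        ext i
        simp only [mem_filter, mem_univ, true_and, mem_insert]
        rw [le_iff_lt_or_eq]
        tauto
      rw [h3, sum_insert (by simp), add_comm]
    rw [h2]
    by_cases hj : j = Fin.last n
    · subst hj
      rw [finRotate_last]
      have h3 : (univ.filter fun i : Fin (n + 1) => i ≤ Fin.last n) = univ := by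
        ext i
        simp [Fin.le_last]
      rw [h3, h0]
      show ∑ i ∈ univ.filter (fun i : Fin (n + 1) => i < 0), bz (x i) = 0
      apply sum_eq_zero
      intro i hi
      rw [mem_filter] at hi
      exact absurd hi.2 (Fin.not_lt_zero i)
    · have hj' : j.val < n := by
        have := Fin.val_ne_of_ne hj
        have h4 := j.2
        simp only [Fin.val_last] at this
        omega
      show ∑ i ∈ univ.filter (fun i => i < finRotate (n + 1) j), bz (x i) = _
      refine sum_congr ?_ fun _ _ => rfl
      ext i
      simp only [mem_filter, mem_univ, true_and]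
      rw [Fin.lt_def, coe_finRotate_of_ne_last hj, Fin.le_def]
      omega
  refine ⟨L, fun j => L (finRotate (n + 1) j), ?_⟩
  rw [par_sat]
  have h1 : ∀ j : Fin (n + 1), ((if L (finRotate (n + 1) j) = L (finRotate (n + 1) j) then 1 else 0)
      + if L j + bz (x j) = L (finRotate (n + 1) j) then 1 else 0) = 2 := by
    intro j
    rw [if_pos rfl, if_pos (hL j).symm]
  rw [sum_congr rfl fun j _ => h1 j, sum_const, card_univ, Fintype.card_fin, smul_eq_mul]
  ring

/-- every labelling violates a constraint if the number of ones is odd -/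
lemma par_odd {n : ℕ} (x : Fin (n + 1) → Bool)
    (hx : Odd (univ.filter fun i => x i = true).card) (L M : Fin (n + 1) → ZMod 2) :
    satisfied (parSrc n) (parTgt n) (parPerm n)
      (fun e => (parC n).nodeVal x (parOut n e)) L M < 2 * (n + 1) := by
  rw [odd_iff] at hx
  rw [par_sat]
  by_contra hcon
  push Not at hcon
  have h1 : ∀ j : Fin (n + 1), ((if L (finRotate (n + 1) j) = M j then 1 else 0) +
      if L j + bz (x j) = M j then 1 else 0) ≤ 2 := by
    intro j
    split_ifs <;> simp
  have h2 : ∑ j : Fin (n + 1), ((if L (finRotate (n + 1) j) = M j then 1 else 0) +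
      if L j + bz (x j) = M j then 1 else 0) = ∑ _j : Fin (n + 1), 2 := by
    refine le_antisymm (sum_le_sum fun j _ => h1 j) ?_
    rw [sum_const, card_univ, Fintype.card_fin, smul_eq_mul]
    omega
  have h3 := (Finset.sum_eq_sum_iff_of_le fun j (_ : j ∈ (univ : Finset (Fin (n + 1)))) => h1 j).mp h2
  have h4 : ∀ j, L (finRotate (n + 1) j) = L j + bz (x j) := by
    intro j
    have h5 := h3 j (mem_univ j)
    by_cases ha : L (finRotate (n + 1) j) = M j
    · by_cases hb : L j + bz (x j) = M j
      · rw [ha, hb]
      · rw [if_pos ha, if_neg hb] at h5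
        omega
    · rw [if_neg ha] at h5
      split_ifs at h5 <;> omega
  have h5 : ∑ j, L (finRotate (n + 1) j) = ∑ j, L j := Equiv.sum_comp (finRotate (n + 1)) L
  rw [sum_congr rfl fun j _ => h4 j, sum_add_distrib, hx] at h5
  have h6 : ∀ z : ZMod 2, z + 1 ≠ z := by decide
  exact h6 _ h5

/-- the reduction -/
theorem cycle (n : ℕ) : ∃ (C : Circuit (Fin (n + 1))) (T : Type) (_ : Fintype T)
    (src tgt : T → Fin (n + 1)) (perm : T → Equiv.Perm (ZMod 2))
    (out : T → Fin (n + 1) ⊕ Fin C.size), C.size = n + 2 ∧ (∀ e, C.nodeDepth (out e) ≤ 1) ∧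
    ∀ x, size (fun e => C.nodeVal x (out e)) = 2 * (n + 1) ∧
      (¬ Odd (univ.filter fun i => x i = true).card → ∃ L M,
        satisfied src tgt perm (fun e => C.nodeVal x (out e)) L M = 2 * (n + 1)) ∧
      (Odd (univ.filter fun i => x i = true).card → ∀ L M,
        satisfied src tgt perm (fun e => C.nodeVal x (out e)) L M < 2 * (n + 1)) :=
  ⟨parC n, Fin (n + 1) × Option Bool, inferInstance, parSrc n, parTgt n, parPerm n, parOut n, rfl,
    fun e => parC_depth _, fun x => ⟨par_size x, par_even x, par_odd x⟩⟩

end Pool.Agent.Q226.UGC
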