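import Mathlib

/-!
# Unique games given by bits: definitions

`T` is a finite type of possible constraints; the constraint `e : T` joins the left vertex `src e`
and the right vertex `tgt e` and has the permutation `perm e` of the alphabet `A`. A game is a subset
of `T`, given by its indicator `g : T → Bool`.
-/

set_option autoImplicit false

namespace Pool.Agent.Q226.UGC

open Finset
open scoped Classical

variable {T U V A : Type} [Fintype T]

/-- the number of the constraints of the game `g` -/
noncomputable def size (g : T → Bool) : ℕ := (univ.filter fun e => g e = true).card

/-- the number of the constraints of the game `g` which the labelling `L`, `M` satisfies -/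
noncomputable def satisfied (src : T → U) (tgt : T → V) (perm : T → Equiv.Perm A) (g : T → Bool)
    (L : U → A) (M : V → A) : ℕ :=
  (univ.filter fun e => g e = true ∧ perm e (L (src e)) = M (tgt e)).card

end Pool.Agent.Q226.UGC
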